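import Mathlib

open Set Topology

namespace Pool.Agent.Results.MP_a1e9e0_gt.Ex

/-- the selection property for decompositions indexed by `I` -/
def PW (X : Type) [TopologicalSpace X] (I : Type) : Prop :=
  ∀ (F : Set X) (U : I → Set (Set X)), IsClosed F → (∀ i, ∀ u ∈ U i, IsOpen u) →
    F ⊆ ⋃ i, ⋃₀ U i → ∃ V : I → Set (Set X), (∀ i, V i ⊆ U i ∧ (V i).Countable) ∧
      F ⊆ ⋃ i, closure (⋃₀ V i)

def X : Type := {y : ℝ → Option ℝ // {i | y i = none}.Countable}

def N (y : X) (T : Finset ℝ) : Set X := {z | ∀ i ∈ T, y.1 i ≠ none → z.1 i = y.1 i}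

instance : TopologicalSpace X where
  IsOpen u := ∀ y ∈ u, ∃ T, N y T ⊆ u
  isOpen_univ _ _ := ⟨∅, subset_univ _⟩
  isOpen_inter u v a b y h := by
    obtain ⟨S, p⟩ := a y h.1
    obtain ⟨T, q⟩ := b y h.2
    exact ⟨S ∪ T, fun z g => ⟨p fun i c => g i (by simp [c]), q fun i c => g i (by simp [c])⟩⟩
  isOpen_sUnion s a y := fun ⟨u, h, g⟩ => (a u h y g).imp fun _ c => c.trans (subset_sUnion_of_mem h)

theorem op {i j : ℝ} : IsOpen {z : X | z.1 i = some j} := fun y h =>
  ⟨{i}, fun z g => (g i (by simp) (by simp [show y.1 i = _ from h])).trans h⟩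

theorem exists_not {C : Set ℝ} (h : C.Countable) : ∃ i, i ∉ C :=
  (ne_univ_iff_exists_notMem _).1 fun e => not_countable_univ (e ▸ h)

theorem strict : PW X ℕ := fun F U hF hU hc => by
  classical
  choose n u a b using fun y : F => by simpa using hc y.2
  choose T hT using fun y : F => hU _ _ (a y) _ (b y)
  let D : F → Finset ℝ := fun y => (T y).filter fun i => y.1.1 i ≠ none
  by_cases h : ∃ k, ∀ R : Finset ℝ, ∃ y, n y = k ∧ Disjoint R (D y)
  · obtain ⟨k, h⟩ := h
    choose f f1 f2 using h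
    let R : ℕ → Finset ℝ := Nat.rec ∅ fun _ R => R ∪ D (f R)
    have m : Monotone R := monotone_nat_of_le_succ fun _ => Finset.subset_union_left
    refine ⟨fun i => if i = k then range fun m => u (f (R m)) else ∅, fun i => ?_,
      fun z _ => mem_iUnion.2 ⟨k, mem_closure_iff.2 fun o ho hz => ?_⟩⟩
    · dsimp only; split_ifs with e
      · exact ⟨range_subset_iff.2 fun m => by rw [e, ← f1 (R m)]; exact a _, countable_range _⟩
      · simp
    obtain ⟨S, hS⟩ := ho z hz
    obtain ⟨l, hl⟩ : ∃ l, Disjoint S (D (f (R l))) := by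
      by_contra! g
      choose p p1 p2 using fun l => Finset.not_disjoint_iff.1 (g l)
      have key : ∀ i j, i < j → p i ≠ p j := fun i j c e => Finset.disjoint_left.1 (f2 (R j))
        (m (show i + 1 ≤ j from c) (Finset.mem_union_right _ (p2 i))) (e ▸ p2 j)
      exact infinite_of_injective_forall_mem (s := (S : Set ℝ)) (fun i j e => by
        by_contra c; exact (Ne.lt_or_gt c).elim (key i j · e) (key j i · e.symm)) p1 S.finite_toSet
    let w : X := ⟨fun i => if i ∈ D (f (R l)) then (f (R l)).1.1 i else z.1 i, z.2.mono fun i g => by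
      by_cases c : i ∈ D (f (R l))
      · exact absurd (by simpa [c] using g) (Finset.mem_filter.1 c).2
      · simpa [c] using g⟩
    exact ⟨w, hS fun i c _ => if_neg (Finset.disjoint_left.1 hl c), by
      simp only [if_true]
      exact ⟨_, ⟨l, rfl⟩, hT _ fun i c d => if_pos (Finset.mem_filter.2 ⟨c, d⟩)⟩⟩
  · push Not at h
    choose R hR using h
    refine ⟨fun _ => ∅, by simp, fun z hz => ?_⟩
    let w : X := ⟨fun i => if ∃ k, i ∈ R k then none else z.1 i,
      (z.2.union (countable_iUnion fun k => (R k).countable_toSet)).mono fun i g => by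
        by_cases c : ∃ k, i ∈ R k
        · exact .inr (by simpa using c)
        · exact .inl ((if_neg c).symm.trans g)⟩
    have : w ∈ F := by
      by_contra c
      obtain ⟨S, hS⟩ := hF.isOpen_compl w c
      exact hS (show z ∈ N w S from fun i _ d => by
        simp only [w] at d ⊢; split_ifs at * <;> simp_all) hz
    obtain ⟨i, p, q⟩ := Finset.not_disjoint_iff.1 (hR _ ⟨w, this⟩ rfl)
    exact absurd (if_pos ⟨_, p⟩) (Finset.mem_filter.1 q).2

theorem result : ∃ (Y : Type) (_ : TopologicalSpace Y), T0Space Y ∧ PW Y ℕ ∧ ¬ PW Y ℝ := by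
  refine ⟨X, inferInstance, ⟨fun y z h => Subtype.ext (funext fun i => ?_)⟩, strict, fun h => ?_⟩
  · have := fun j => h.mem_open_iff (op (i := i) (j := j))
    cases p : y.1 i <;> cases q : z.1 i <;> simp_all
  · obtain ⟨V, a, b⟩ := h univ (fun i => range fun j => {z : X | z.1 i = some j}) isClosed_univ
      (by rintro i _ ⟨j, rfl⟩; exact op) fun y _ => by
        obtain ⟨i, c⟩ := exists_not y.2
        obtain ⟨j, e⟩ := Option.ne_none_iff_exists'.1 c
        exact mem_iUnion.2 ⟨i, _, ⟨j, rfl⟩, e⟩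
    choose s hs using fun i => exists_not ((a i).2.preimage_of_injOn
      (f := fun j => {z : X | z.1 i = some j}) fun j _ k _ e => by
        simpa using (Set.ext_iff.1 e ⟨fun _ => some j, by simp⟩).1 rfl)
    obtain ⟨i, c⟩ := mem_iUnion.1 (b (mem_univ ⟨fun i => some (s i), by simp⟩))
    obtain ⟨z, p, v, q, r⟩ := mem_closure_iff.1 c _ (op (i := i) (j := s i)) rfl
    obtain ⟨j, rfl⟩ := (a i).1 q
    exact hs i (by rwa [show s i = j by simpa using p.symm.trans r])

end Pool.Agent.Results.MP_a1e9e0_gt.Ex
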